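import Pool.Agent.W536.LM.Stm

/-!
Project LM, part RIG: infinitesimal rigidity at generic realisations.
-/

set_option autoImplicit false

open Polynomial W536.LM

namespace Pool.Agent.W724.LM.Rig

/-- the rigidity map -/
def A (p : Fin 8 → Fin 2 → ℝ) : (Fin 8 → Fin 2 → ℝ) →ₗ[ℝ] (Fin 13 → ℝ) where
  toFun u a := ∑ k, (p (ed a).1 k - p (ed a).2 k) * (u (ed a).1 k - u (ed a).2 k)
  map_add' u v := by
    funext a
    simp only [Fin.sum_univ_two, Pi.add_apply]
    ring
  map_smul' c u := by
    funext a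
    simp only [Fin.sum_univ_two, Pi.smul_apply, smul_eq_mul, RingHom.id_apply]
    ring

theorem A_apply (p u : Fin 8 → Fin 2 → ℝ) (a : Fin 13) :
    A p u a = ∑ k, (p (ed a).1 k - p (ed a).2 k) * (u (ed a).1 k - u (ed a).2 k) := rfl

theorem A_surj (hR : S_RK) (p : Fin 8 → Fin 2 → ℝ) (hp : Gn p) : LinearMap.range (A p) = ⊤ := by
  by_contra hne
  obtain ⟨f, hf, hle⟩ := Submodule.exists_le_ker_of_lt_top _ (lt_top_iff_ne_top.2 hne)
  apply hf
  have hfx : ∀ x : Fin 13 → ℝ, f x = ∑ a, x a * f (Pi.single a 1) := by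
    intro x
    conv_lhs => rw [← Finset.univ_sum_single x]
    rw [map_sum]
    refine Finset.sum_congr rfl fun a _ => ?_
    rw [show (Pi.single a (x a) : Fin 13 → ℝ) = x a • Pi.single a 1 by
      rw [← Pi.single_smul, smul_eq_mul, mul_one], map_smul, smul_eq_mul]
  have hl := hR p hp (fun a => f (Pi.single a 1)) (by
    intro v k
    have h0 : f (A p (Pi.single v (Pi.single k 1))) = 0 :=
      hle ⟨_, rfl⟩
    rw [hfx] at h0
    refine Eq.trans ?_ h0
    refine Finset.sum_congr rfl fun a _ => ?_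
    rw [mul_comm]
    congr 1
    rw [A_apply]
    rw [Finset.sum_eq_single k]
    · have e1 : ∀ w : Fin 8, (Pi.single v (Pi.single k (1 : ℝ)) : Fin 8 → Fin 2 → ℝ) w k =
          if w = v then 1 else 0 := by
        intro w
        by_cases h : w = v
        · subst h; simp
        · simp [h]
      rw [e1, e1]
      by_cases h1 : (ed a).1 = v <;> by_cases h2 : (ed a).2 = v <;> simp [h1, h2]
    · intro k' _ hk
      have e1 : ∀ w : Fin 8, (Pi.single v (Pi.single k (1 : ℝ)) : Fin 8 → Fin 2 → ℝ) w k' = 0 := by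
        intro w
        by_cases h : w = v
        · subst h; simp [hk]
        · simp [h]
      rw [e1, e1]
      simp
    · intro h
      exact absurd (Finset.mem_univ k) h)
  apply LinearMap.ext
  intro x
  rw [hfx]
  simp only [LinearMap.zero_apply]
  refine Finset.sum_eq_zero fun a _ => ?_
  have := congrFun hl a
  simp only [Pi.zero_apply] at this
  rw [this, mul_zero]

/-- trivial motions -/
def tr (p : Fin 8 → Fin 2 → ℝ) : Fin 3 → (Fin 8 → Fin 2 → ℝ) :=
  ![fun _ => ![1, 0], fun _ => ![0, 1], fun v => ![-p v 1, p v 0]]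

theorem tr_comb (p : Fin 8 → Fin 2 → ℝ) (c : Fin 3 → ℝ) (v : Fin 8) :
    (∑ i, c i • tr p i) v 0 = c 0 - c 2 * p v 1 ∧ (∑ i, c i • tr p i) v 1 = c 1 + c 2 * p v 0 := by
  constructor
  · simp [tr, Fin.sum_univ_three]
    ring
  · simp [tr, Fin.sum_univ_three]

theorem tr_ind (p : Fin 8 → Fin 2 → ℝ) (hp : Gn p) : LinearIndependent ℝ (tr p) := by
  rw [Fintype.linearIndependent_iff]
  intro c hc
  have h1 := tr_comb p c 0
  have h2 := tr_comb p c 1
  rw [hc] at h1 h2
  simp only [Pi.zero_apply] at h1 h2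
  have hne : p 0 0 ≠ p 1 0 := by
    intro h
    have := hp.injective (a₁ := ((0 : Fin 8), (0 : Fin 2))) (a₂ := ((1 : Fin 8), (0 : Fin 2))) h
    simp at this
  have h3 : c 2 * (p 0 0 - p 1 0) = 0 := by linear_combination h2.2 - h1.2
  have hc2 : c 2 = 0 := by
    rcases mul_eq_zero.1 h3 with h | h
    · exact h
    · exact absurd (sub_eq_zero.1 h) hne
  have hc0 : c 0 = 0 := by rw [hc2] at h1; linarith [h1.1]
  have hc1 : c 1 = 0 := by rw [hc2] at h1; linarith [h1.2]
  intro i
  fin_cases i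
  · exact hc0
  · exact hc1
  · exact hc2

theorem t_RIG (hR : S_RK) : S_RIG := by
  intro p hp u hu i j
  have hker : u ∈ LinearMap.ker (A p) := by
    rw [LinearMap.mem_ker]
    funext a
    exact hu a
  have hle : Submodule.span ℝ (Set.range (tr p)) ≤ LinearMap.ker (A p) := by
    rw [Submodule.span_le]
    rintro _ ⟨m, rfl⟩
    rw [SetLike.mem_coe, LinearMap.mem_ker]
    funext a
    rw [A_apply]
    fin_cases m
    · simp [tr]
    · simp [tr]
    · simp [tr]
      ring
  have hfr : Module.finrank ℝ (LinearMap.ker (A p)) = 3 := by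
    have h1 := LinearMap.finrank_range_add_finrank_ker (A p)
    rw [A_surj hR p hp, finrank_top] at h1
    have h2 : Module.finrank ℝ (Fin 13 → ℝ) = 13 := by simp
    have h3 : Module.finrank ℝ (Fin 8 → Fin 2 → ℝ) = 16 := by
      rw [Module.finrank_pi_fintype]
      simp
    omega
  have heq : Submodule.span ℝ (Set.range (tr p)) = LinearMap.ker (A p) := by
    apply Submodule.eq_of_le_of_finrank_eq hle
    rw [hfr, finrank_span_eq_card (tr_ind p hp)]
    simp
  rw [← heq, Submodule.mem_span_range_iff_exists_fun] at hker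
  obtain ⟨c, rfl⟩ := hker
  rw [Fin.sum_univ_two, (tr_comb p c i).1, (tr_comb p c j).1, (tr_comb p c i).2,
    (tr_comb p c j).2]
  ring

end Pool.Agent.W724.LM.Rig

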